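import Pool.Agent.U485.SM.Stm2

set_option autoImplicit false

/-!
# Project HT, package WIN: from systems of linear forms to shifts
-/

open Finset MeasureTheory ProbabilityTheory Filter Topology

namespace Pool.Agent.U200.HT

open Pool.Agent.U485.SM

/-- the forms `n + h` -/
def FF (H : Finset ℕ) : Finset (ℤ × ℤ) := H.image (fun h : ℕ => ((1 : ℤ), (h : ℤ)))

lemma mem_FF {H : Finset ℕ} {f : ℤ × ℤ} : f ∈ FF H ↔ ∃ h ∈ H, f = ((1 : ℤ), (h : ℤ)) := by
  unfold FF
  rw [mem_image]
  exact ⟨fun ⟨h, h1, h2⟩ => ⟨h, h1, h2.symm⟩, fun ⟨h, h1, h2⟩ => ⟨h, h1, h2.symm⟩⟩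

lemma card_FF (H : Finset ℕ) : (FF H).card = H.card := by
  unfold FF
  refine card_image_of_injective _ fun a b hab => ?_
  simpa using hab

lemma nu_FF (H : Finset ℕ) {p : ℕ} (hp : 0 < p) : nu (FF H) p = res H p := by
  classical
  unfold nu res
  refine Finset.card_nbij' (fun r => (p - r) % p) (fun r => (p - r) % p) ?_ ?_ ?_ ?_
  · intro r hr
    rw [Finset.mem_coe] at hr ⊢
    unfold Om at hr
    rw [mem_filter, mem_range] at hr
    obtain ⟨hr, f, hf, -, hd⟩ := hr
    obtain ⟨h, hh, rfl⟩ := mem_FF.1 hf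
    rw [mem_image]
    refine ⟨h, hh, ?_⟩
    have h1 : p ∣ r + h := by
      have : Pool.Agent.U485.SM.val ((1 : ℤ), (h : ℤ)) r = ((r + h : ℕ) : ℤ) := by
        unfold Pool.Agent.U485.SM.val
        push_cast
        ring
      rw [this] at hd
      exact Int.natCast_dvd_natCast.1 hd
    show h % p = (p - r) % p
    have h2 : (h + r) % p = (p - r + r) % p := by
      rw [Nat.sub_add_cancel hr.le, Nat.mod_self, add_comm]
      exact Nat.mod_eq_zero_of_dvd h1
    exact Nat.ModEq.add_right_cancel' r h2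
  · intro c hc
    rw [Finset.mem_coe, mem_image] at hc
    obtain ⟨h, hh, rfl⟩ := hc
    rw [Finset.mem_coe]
    unfold Om
    rw [mem_filter, mem_range]
    refine ⟨Nat.mod_lt _ hp, ((1 : ℤ), (h : ℤ)), mem_FF.2 ⟨h, hh, rfl⟩, le_rfl, ?_⟩
    have h1 : Pool.Agent.U485.SM.val ((1 : ℤ), (h : ℤ)) (((p - h % p) % p : ℕ) : ℤ) = (((p - h % p) % p + h : ℕ) : ℤ) := by
      unfold Pool.Agent.U485.SM.val
      push_cast
      ring
    show (p : ℤ) ∣ Pool.Agent.U485.SM.val ((1 : ℤ), (h : ℤ)) (((p - h % p) % p : ℕ) : ℤ)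
    rw [h1, Int.natCast_dvd_natCast]
    have h2 : h % p < p := Nat.mod_lt _ hp
    have h3 : (p - h % p) % p + h ≡ (p - h % p) + h % p [MOD p] :=
      Nat.ModEq.add (Nat.mod_modEq _ _) (Nat.mod_modEq _ _).symm
    rw [Nat.sub_add_cancel h2.le] at h3
    exact (Nat.modEq_zero_iff_dvd).1 (h3.trans (Nat.modEq_zero_iff_dvd.2 dvd_rfl))
  · intro r hr
    rw [Finset.mem_coe] at hr
    unfold Om at hr
    rw [mem_filter, mem_range] at hr
    have hr := hr.1
    show (p - (p - r) % p) % p = r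
    rcases Nat.eq_zero_or_pos r with rfl | h0
    · rw [Nat.sub_zero, Nat.mod_self, Nat.sub_zero, Nat.mod_self]
    · rw [Nat.mod_eq_of_lt (by omega : p - r < p), Nat.sub_sub_self hr.le, Nat.mod_eq_of_lt hr]
  · intro c hc
    rw [Finset.mem_coe, mem_image] at hc
    obtain ⟨h, hh, rfl⟩ := hc
    have hr : h % p < p := Nat.mod_lt _ hp
    show (p - (p - h % p) % p) % p = h % p
    rcases Nat.eq_zero_or_pos (h % p) with h0 | h0
    · rw [h0, Nat.sub_zero, Nat.mod_self, Nat.sub_zero, Nat.mod_self]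
    · rw [Nat.mod_eq_of_lt (by omega : p - h % p < p), Nat.sub_sub_self hr.le, Nat.mod_mod]

lemma cnt_FF (Q : Set ℕ) (H : Finset ℕ) (a b : ℕ) (ha : 0 < a) :
    cnt Q (FF H) (a : ℤ) (b : ℤ) = num Q H a b := by
  unfold cnt num
  rw [← Set.ncard_image_of_injective _ (Nat.cast_injective (R := ℤ))]
  congr 1
  ext n
  simp only [Set.mem_ofPred_eq, Set.mem_image]
  constructor
  · rintro ⟨h1, h2, h3⟩
    obtain ⟨m, rfl⟩ : ∃ m : ℕ, n = m := ⟨n.toNat, by omega⟩
    refine ⟨m, ⟨by exact_mod_cast h1, by exact_mod_cast h2, fun h hh => ?_⟩, rfl⟩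
    have h4 := (h3 _ (mem_FF.2 ⟨h, hh, rfl⟩)).2
    have h5 : (Pool.Agent.U485.SM.val ((1 : ℤ), (h : ℤ)) m).toNat = m + h := by
      unfold Pool.Agent.U485.SM.val
      simp only [one_mul]
      omega
    rwa [h5] at h4
  · rintro ⟨m, ⟨h1, h2, h3⟩, rfl⟩
    refine ⟨by exact_mod_cast h1, by exact_mod_cast h2, fun f hf => ?_⟩
    obtain ⟨h, hh, rfl⟩ := mem_FF.1 hf
    have h5 : (Pool.Agent.U485.SM.val ((1 : ℤ), (h : ℤ)) m).toNat = m + h := by
      unfold Pool.Agent.U485.SM.val
      simp only [one_mul]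
      omega
    rw [h5]
    refine ⟨?_, h3 h hh⟩
    unfold Pool.Agent.U485.SM.val
    simp only [one_mul]
    omega

/-- **WIN.** -/
theorem t_WIN : Pool.Agent.U485.SM.S_WIN := by
  intro Q hQ H c hc d η hd hη
  have h1 := hQ (FF H)
    (fun f hf => by
      obtain ⟨h, -, rfl⟩ := mem_FF.1 hf
      exact isCoprime_one_left)
    (fun f hf => by
      obtain ⟨h, -, rfl⟩ := mem_FF.1 hf
      exact one_ne_zero)
    (fun f hf g hg hfg => by
      obtain ⟨h, -, rfl⟩ := mem_FF.1 hf
      obtain ⟨h', -, rfl⟩ := mem_FF.1 hg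
      intro h2
      simp only [one_mul] at h2
      exact hfg (by rw [h2]))
    c
    (by
      refine hc.congr fun y => ?_
      unfold PP
      refine prod_congr rfl fun p hp => ?_
      have hpp : p.Prime := (mem_filter.1 hp).2
      rw [nu_FF H hpp.pos, card_FF])
    2 3 d η hd hη
  filter_upwards [h1, eventually_ge_atTop 2, eventually_ge_atTop (H.sup id)] with x hx hx2 hxH h hh1 hh2
  have h2 := hx (x : ℤ) ((x + h : ℕ) : ℤ)
    (by
      rw [abs_of_nonneg (by positivity)]
      have : (1 : ℤ) ≤ x := by omega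
      nlinarith)
    (by
      rw [abs_of_nonneg (by positivity)]
      have h3 : (2 : ℤ) ≤ x := by exact_mod_cast hx2
      have h4 : (h : ℤ) ≤ x := by exact_mod_cast hh2
      push_cast
      nlinarith)
    (by
      push_cast
      linarith)
    (by
      intro n hn f hf
      obtain ⟨h0, hh0, rfl⟩ := mem_FF.1 hf
      rw [Finset.mem_Ioc] at hn
      have h5 : h0 ≤ x := (Finset.le_sup (f := id) hh0).trans hxH
      have h6 : (h : ℤ) ≤ x := by exact_mod_cast hh2
      have h7 : (h0 : ℤ) ≤ x := by exact_mod_cast h5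
      have h8 : n ≤ x + h := by
        have := hn.2
        push_cast at this
        exact this
      have e : Pool.Agent.U485.SM.val ((1 : ℤ), (h0 : ℤ)) n = n + h0 := by
        unfold Pool.Agent.U485.SM.val
        ring
      rw [e]
      constructor
      · have : (x : ℤ) ≤ n + h0 := by omega
        exact_mod_cast this
      · have : n + h0 ≤ 3 * (x : ℤ) := by omega
        exact_mod_cast this)
  rw [cnt_FF Q H x (x + h) (by omega), card_FF] at h2
  have e : (((x + h : ℕ) : ℤ) : ℝ) - ((x : ℤ) : ℝ) = h := by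
    push_cast
    ring
  rw [e] at h2
  exact h2

end Pool.Agent.U200.HT
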